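import Pool.Agent.P.MP_fc15d7_nt.HZ.Iface

/-! Renyi entropy of order `1 + s` and normalised norms. -/

set_option autoImplicit false
set_option linter.unusedSectionVars false

namespace Pool.Agent.P.MP_fc15d7_nt.HP

open Finset Pool.Agent.P.MP_fc15d7_nt.HZ

section Alg

variable {G : Type} [AddCommGroup G] [Fintype G]

/-- the sum of the powers of order `1 + s` -/
noncomputable def sp (s : ℝ) (p : GA G) : ℝ := ∑ x, co p x ^ (1 + s)

/-- Renyi entropy of order `1 + s` -/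
noncomputable def HR (s : ℝ) (p : GA G) : ℝ := -Real.log (sp s p) / s

theorem sp_pos {p : GA G} (hp : Pm p) (s : ℝ) : 0 < sp s p := by
  obtain ⟨x, hx⟩ : ∃ x, co p x ≠ 0 := by
    by_contra h
    push Not at h
    have := hp.2
    simp [h] at this
  exact sum_pos' (fun y _ => Real.rpow_nonneg (hp.1 y) _)
    ⟨x, mem_univ x, Real.rpow_pos_of_pos ((hp.1 x).lt_of_ne' hx) _⟩

theorem sp_eq {p : GA G} (hp : Pm p) {s : ℝ} (hs : 0 < s) : sp s p = Real.exp (-(s * HR s p)) := by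
  rw [HR, mul_div_cancel₀ _ hs.ne', neg_neg, Real.exp_log (sp_pos hp s)]

end Alg

theorem lam_pos : 0 < lam := lt_of_lt_of_le (by norm_num) half_le_lam

theorem lam_lt_one : lam < 1 := by
  rw [lam, div_lt_one (Real.log_pos (by norm_num))]
  exact Real.log_lt_log (by norm_num) (by norm_num)

/-- the exponent `r` with `1 / r = lam + (1 - lam) / (1 + s)` -/
noncomputable def pe (s : ℝ) : ℝ := (lam + (1 - lam) / (1 + s))⁻¹

theorem inv_pe (s : ℝ) : (pe s)⁻¹ = lam + (1 - lam) / (1 + s) := inv_inv _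

theorem inv_pe_pos {s : ℝ} (hs : 0 < s) : 0 < lam + (1 - lam) / (1 + s) := by
  have h1 := lam_pos
  have h2 : 0 < 1 - lam := sub_pos.2 lam_lt_one
  positivity

theorem pe_pos {s : ℝ} (hs : 0 < s) : 0 < pe s := inv_pos.2 (inv_pe_pos hs)

theorem one_sub_inv_pe {s : ℝ} (hs : 0 < s) : 1 - (pe s)⁻¹ = (1 - lam) * s / (1 + s) := by
  rw [inv_pe]; field_simp; ring

theorem one_le_pe {s : ℝ} (hs : 0 < s) : 1 ≤ pe s := by
  have h2 : 0 < 1 - lam := sub_pos.2 lam_lt_one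
  have h : 0 ≤ 1 - (pe s)⁻¹ := by rw [one_sub_inv_pe hs]; positivity
  exact (inv_le_one₀ (pe_pos hs)).1 (by linarith)

/-- the normalised norm of exponent `r` on `[0, R)` -/
noncomputable def nm (r : ℝ) (R : ℕ) (φ : ℕ → ℝ) : ℝ := ((∑ k ∈ range R, φ k ^ r) / R) ^ r⁻¹

theorem nm_nonneg (r : ℝ) (R : ℕ) {φ : ℕ → ℝ} (h : ∀ k, 0 ≤ φ k) : 0 ≤ nm r R φ :=
  Real.rpow_nonneg (div_nonneg (sum_nonneg fun k _ => Real.rpow_nonneg (h k) _) (Nat.cast_nonneg _)) _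

theorem nm_rpow {r : ℝ} (hr : r ≠ 0) (R : ℕ) {φ : ℕ → ℝ} (h : ∀ k, 0 ≤ φ k) :
    nm r R φ ^ r = (∑ k ∈ range R, φ k ^ r) / R :=
  Real.rpow_inv_rpow (div_nonneg (sum_nonneg fun k _ => Real.rpow_nonneg (h k) _)
    (Nat.cast_nonneg _)) hr

theorem nm_one (R : ℕ) (φ : ℕ → ℝ) : nm 1 R φ = (∑ k ∈ range R, φ k) / R := by simp [nm]

/-- the mean of `ψ (∑ t < n, d t * 2 ^ t * 3 ^ (n - 1 - t))` over the bits `d t` -/
noncomputable def av : ℕ → (ℕ → ℝ) → ℝ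
  | 0, ψ => ψ 0
  | n + 1, ψ => av n fun j => (ψ (3 * j) + ψ (3 * j + 2 ^ n)) / 2

theorem av_zero (ψ : ℕ → ℝ) : av 0 ψ = ψ 0 := rfl

theorem av_succ (n : ℕ) (ψ : ℕ → ℝ) :
    av (n + 1) ψ = av n fun j => (ψ (3 * j) + ψ (3 * j + 2 ^ n)) / 2 := rfl

theorem av_mono (n : ℕ) {ψ ψ' : ℕ → ℝ} (h : ∀ j, j + 2 ^ n ≤ 3 ^ n → ψ j ≤ ψ' j) :
    av n ψ ≤ av n ψ' := by
  induction n generalizing ψ ψ' with
  | zero => exact h 0 (by simp)
  | succ n ih =>
    refine ih fun j hj => ?_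
    have h1 := h (3 * j) (by rw [pow_succ, pow_succ]; omega)
    have h2 := h (3 * j + 2 ^ n) (by rw [pow_succ, pow_succ]; omega)
    linarith

theorem av_const (n : ℕ) (c : ℝ) : av n (fun _ => c) = c := by
  induction n with
  | zero => rfl
  | succ n ih => rw [av_succ]; simpa using ih

theorem av_nonneg (n : ℕ) {ψ : ℕ → ℝ} (h : ∀ j, 0 ≤ ψ j) : 0 ≤ av n ψ :=
  (av_const n 0).symm.le.trans (av_mono n fun j _ => h j)

theorem co_pr_mul {G : Type} [AddCommGroup G] [Fintype G] (n : ℕ) (g : G) (a : ℕ → G)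
    (ha : ∀ t < n, a t = (2 ^ t * 3 ^ (n - 1 - t)) • g) (F : GA G) (x : G) :
    co (pr 2 n a * F) x = av n fun j => co F (x - j • g) := by
  induction n generalizing g F with
  | zero => simp [pr_zero, av_zero]
  | succ n ih =>
    rw [pr_succ, mul_comm (ap 2 (a n)), mul_assoc, ih (3 • g), av_succ]
    · congr 1
      funext j
      rw [co_ap_two_mul, ha n (Nat.lt_succ_self n), smul_smul, mul_comm j 3, add_smul, sub_sub]
      simp
    · intro t ht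
      rw [ha t (by omega), smul_smul, show n + 1 - 1 - t = n - 1 - t + 1 by omega, pow_succ,
        mul_assoc]

/-- the generator `2 ^ u / 3 ^ (u + n)` of the cell `[u, u + n)` -/
def gen (N u n : ℕ) : ZMod (2 ^ N) := 2 ^ u * (3 : ZMod (2 ^ N))⁻¹ ^ (u + n)

theorem al_eq_gen (N u n t : ℕ) (ht : t < n) :
    al N (u + t) = (2 ^ t * 3 ^ (n - 1 - t)) • gen N u n := by
  obtain ⟨r, rfl⟩ := Nat.exists_eq_add_of_lt ht
  rw [show t + r + 1 - 1 - t = r by omega, al, gen, nsmul_eq_mul]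
  push_cast
  have h : ((3 : ZMod (2 ^ N)) * 3⁻¹) ^ r = 1 := by rw [three_mul_inv, one_pow]
  linear_combination (-(2 ^ (u + t) * (3 : ZMod (2 ^ N))⁻¹ ^ (u + t + 1))) * h

theorem three_pow_mul_gen (N u n r : ℕ) :
    (3 : ZMod (2 ^ N)) ^ (u + n + r) * gen N u n = 2 ^ u * 3 ^ r := by
  have h : ((3 : ZMod (2 ^ N)) * 3⁻¹) ^ (u + n) = 1 := by rw [three_mul_inv, one_pow]
  rw [gen]
  linear_combination (2 ^ u * (3 : ZMod (2 ^ N)) ^ r) * h

end Pool.Agent.P.MP_fc15d7_nt.HP
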