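import Pool.Agent.P.MP_fc15d7_nt.HP.Base

/-! The steps of the power saving form of the horizon theorem. -/

set_option autoImplicit false

namespace Pool.Agent.P.MP_fc15d7_nt.HP

open Finset Filter Topology Pool.Agent.P.MP_fc15d7_nt.HZ

/-! ### Steps that are already proved -/

/-- the inequality on three points -/
abbrev S_SD : Prop := HZ.S_SD

/-- unions of cells are injective -/
abbrev S_MDS : Prop := HZ.S_MDS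

/-- cells and gaps -/
abbrev S_GAPS : Prop := HZ.S_GAPS

/-- the law of the weighted sum of the parities -/
abbrev S_LAW : Prop := HZ.S_LAW

/-- the bad classes are exponentially rare -/
abbrev S_BAD : Prop := HZ.S_BAD

/-! ### Norm inequalities -/

-- deps: SD
-- imports: Pool.Agent.P.MP_fc15d7_nt.HZ.Iface
def S_HC : Prop :=
  ∀ s a b c : ℝ, 0 < s → s ≤ 1 → 0 ≤ a → 0 ≤ b → 0 ≤ c →
    ((((a + b) / 2) ^ (1 + s) + ((b + c) / 2) ^ (1 + s) + ((c + a) / 2) ^ (1 + s)) / 3) ^ (1 + s)⁻¹ ≤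
      Real.exp (s ^ 2) * ((a ^ pe s + b ^ pe s + c ^ pe s) / 3) ^ (pe s)⁻¹

-- deps:
-- imports: Pool.Agent.P.MP_fc15d7_nt.HZ.Iface
def S_NM : Prop :=
  (∀ (r : ℝ) (R : ℕ) (φ ψ : ℕ → ℝ), 1 ≤ r → (∀ k, 0 ≤ φ k) → (∀ k, 0 ≤ ψ k) →
    nm r R (fun k => (φ k + ψ k) / 2) ≤ (nm r R φ + nm r R ψ) / 2) ∧
  (∀ (R : ℕ) (φ : ℕ → ℝ),
    ∑ k ∈ range (3 * R), φ k = ∑ i ∈ range 3, ∑ k ∈ range R, φ (i + 3 * k)) ∧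
  (∀ (R d : ℕ) (φ : ℕ → ℝ), (∀ k, φ (k + R) = φ k) →
    ∑ k ∈ range R, φ (k + d) = ∑ k ∈ range R, φ k)

-- deps: HC NM
-- imports: Pool.Agent.P.MP_fc15d7_nt.HZ.Iface
def S_TENS : Prop :=
  ∀ (s : ℝ) (n : ℕ) (φ : ℕ → ℝ), 0 < s → s ≤ 1 → (∀ k, 0 ≤ φ k) → (∀ k, φ (k + 3 ^ n) = φ k) →
    nm (1 + s) (3 ^ n) (fun k => av n fun j => φ (k + j)) ≤
      Real.exp (s ^ 2 * n) * nm (pe s) (3 ^ n) φ

-- deps: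
-- imports: Pool.Agent.P.MP_fc15d7_nt.HZ.Iface
def S_INTERP : Prop :=
  ∀ (s : ℝ) (R : ℕ) (φ : ℕ → ℝ), 0 < s → 1 ≤ R → (∀ k, 0 ≤ φ k) →
    nm (pe s) R φ ≤ nm 1 R φ ^ lam * nm (1 + s) R φ ^ (1 - lam)

-- deps: TENS INTERP
-- imports: Pool.Agent.P.MP_fc15d7_nt.HZ.Iface
def S_FIB : Prop :=
  ∀ (s : ℝ) (n : ℕ) (ψ : ℕ → ℝ), 0 < s → s ≤ 1 → (∀ k, 0 ≤ ψ k) →
    (∑ k ∈ range (3 ^ n), (av n fun j => ψ (k + j)) ^ (1 + s)) / 3 ^ n ≤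
      (2 * Real.exp (s ^ 2 * n)) ^ (1 + s) *
        ((((∑ k ∈ range (2 * 3 ^ n), ψ k) / (2 * 3 ^ n)) ^ (1 + s)) ^ lam *
          ((∑ k ∈ range (2 * 3 ^ n), ψ k ^ (1 + s)) / (2 * 3 ^ n)) ^ (1 - lam))

-- deps: FIB
-- imports: Pool.Agent.P.MP_fc15d7_nt.HZ.Iface
def S_CELA : Prop :=
  ∀ (G : Type) [AddCommGroup G] [Fintype G] (s : ℝ) (n : ℕ) (g : G) (a : ℕ → G) (F : GA G),
    0 < s → s ≤ 1 → (∀ t < n, a t = (2 ^ t * 3 ^ (n - 1 - t)) • g) → Pm F →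
    sp s (pr 2 n a * F) ≤ (2 * Real.exp (s ^ 2 * n)) ^ (1 + s) *
      (sp s (ap (2 * 3 ^ n) g * F) ^ lam * sp s F ^ (1 - lam))

-- deps: CELA
-- imports: Pool.Agent.P.MP_fc15d7_nt.HZ.Iface
def S_CELL : Prop :=
  ∀ (G : Type) [AddCommGroup G] [Fintype G] (s : ℝ) (n : ℕ) (g : G) (a : ℕ → G) (F : GA G),
    0 < s → s ≤ 1 → (∀ t < n, a t = (2 ^ t * 3 ^ (n - 1 - t)) • g) → Pm F →
    (1 - lam) * HR s F + lam * HR s (ap (2 * 3 ^ n) g * F) - (2 / s + 2 * s * n) ≤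
      HR s (pr 2 n a * F)

-- deps:
-- imports: Pool.Agent.P.MP_fc15d7_nt.HZ.Iface
def S_MONO : Prop :=
  ∀ (G : Type) [AddCommGroup G] [Fintype G] (s : ℝ) (A p : GA G), 0 < s → Pm A → Pm p →
    HR s p ≤ HR s (A * p)

-- deps:
-- imports: Pool.Agent.P.MP_fc15d7_nt.HZ.TPERC
def S_PERC : Prop :=
  ∀ (G : Type) [AddCommGroup G] [Fintype G] (Φ : GA G → ℝ) (ι : Type) (J : Finset ι)
    (T U : ι → GA G) (p : GA G) (l E b ρ k : ℝ), 0 ≤ l → l ≤ 1 → 0 ≤ ρ → k < l * J.card → Pm p →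
    (∀ j ∈ J, Pm (T j)) → (∀ j ∈ J, Pm (U j)) →
    (∀ j ∈ J, ∀ q : GA G, Pm q → (1 - l) * Φ q + l * Φ (U j * q) - E ≤ Φ (T j * q)) →
    (∀ K ⊆ J, b + ρ * min (K.card : ℝ) k ≤ Φ ((∏ j ∈ K, U j) * p)) →
    b + ρ * (k - J.card / (16 * (l * J.card - k))) - J.card * E ≤ Φ ((∏ j ∈ J, T j) * p)

-- deps:
-- imports: Pool.Agent.P.MP_fc15d7_nt.HZ.TFLAT
def S_FLAT : Prop :=
  ∀ (G : Type) [AddCommGroup G] [Fintype G] (s : ℝ) (ι : Type) [Fintype ι] (R : ι → ℕ) (b : ι → G),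
    0 < s → (∀ i, 1 ≤ R i) →
    (∀ d d' : ι → ℕ, (∀ i, d i < R i) → (∀ i, d' i < R i) →
      ∑ i, d i • b i = ∑ i, d' i • b i → d = d') →
    ∑ i, Real.log (R i) ≤ HR s (∏ i, ap (R i) (b i))

-- deps:
-- imports: Pool.Agent.P.MP_fc15d7_nt.HZ.Iface
def S_HOLD : Prop :=
  ∀ (G : Type) [AddCommGroup G] [Fintype G] (s β : ℝ) (p : GA G) (B : Finset G), 0 < s → Pm p →
    (B.card : ℝ) ≤ Real.exp β → ∑ x ∈ B, co p x ≤ Real.exp (s / (1 + s) * (β - HR s p))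

/-! ### The entropy of the law -/

-- deps: MDS FLAT MONO
-- imports: Pool.Agent.P.MP_fc15d7_nt.HZ.TINJ
def S_INJ : Prop :=
  ∀ (m g k : ℕ) (l ν : ℝ), ((m * (g + 1) : ℕ) : ℝ) ≤ l →
    l * Real.log 2 + k * g * Real.log 3 < ν * Real.log 2 →
    ∃ q0 : ℕ, ∀ q ≥ q0, ∀ (L N : ℕ) (s : ℝ), 0 < s → ν * q ≤ N → (L : ℝ) ≤ l * q →
      ∀ K : Finset (Fin m), L * Real.log 2 + (g * q * Real.log 3) * min (K.card : ℝ) k ≤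
        HR s ((∏ j ∈ K, ap (2 * 3 ^ (g * q)) (gen N (((j : ℕ) * (g + 1) + 1) * q) (g * q))) *
          ap (2 ^ L) 1)

-- deps: CELL PERC INJ GAPS MONO
-- imports: Pool.Agent.P.MP_fc15d7_nt.HZ.TENTA
def S_ENTA : Prop :=
  ∀ (m g k : ℕ) (l ν : ℝ), ((m * (g + 1) : ℕ) : ℝ) ≤ l →
    l * Real.log 2 + k * g * Real.log 3 < ν * Real.log 2 → (k : ℝ) < lam * m →
    ∃ q0 : ℕ, ∀ q ≥ q0, ∀ (L N : ℕ) (s : ℝ), 0 < s → s ≤ 1 → m * (g + 1) * q ≤ L →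
      (L : ℝ) ≤ l * q → ν * q ≤ N →
      L * Real.log 2 + (g * q * Real.log 3) * (k - m / (16 * (lam * m - k))) -
        m * (2 / s + 2 * s * (g * q)) ≤ HR s (law L N)

-- deps: ENTA
-- imports: Pool.Agent.P.MP_fc15d7_nt.HZ.Iface
def S_ENT : Prop :=
  ∀ c ε s : ℝ, 0 < c → c < 1 → 0 < ε → 0 < s → s ≤ 1 → ∀ᶠ L : ℕ in atTop,
    ((L + ⌊c * L⌋₊ : ℕ) : ℝ) * Real.log 2 - ε * L - 2 * s * L ≤ HR s (law L (L + ⌊c * L⌋₊))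

/-! ### The parities of the orbit -/

-- deps: LAW HOLD
-- imports: Pool.Agent.P.MP_fc15d7_nt.HZ.TREDA
def S_REDA : Prop :=
  ∀ (L D : ℕ) (B : Finset ℕ) (s β : ℝ), 0 < s → 2 * 2 ^ L * (B.card : ℝ) ≤ Real.exp β →
    (((range (2 ^ L)).filter fun y => f^[L] y % 2 ^ D ∈ B).card : ℝ) / 2 ^ L ≤
      Real.exp (s / (1 + s) * (β - HR s (law L (L + D))))

-- deps: REDA ENT
-- imports: Pool.Agent.P.MP_fc15d7_nt.HZ.Iface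
def S_RED : Prop :=
  ∀ c δ : ℝ, 0 < c → c < 1 → 0 < δ → ∃ δ' : ℝ, 0 < δ' ∧ ∀ᶠ L : ℕ in atTop, ∀ B : Finset ℕ,
    (B.card : ℝ) ≤ 2 ^ ⌊c * L⌋₊ * Real.exp (-(δ * L)) →
    (((range (2 ^ L)).filter fun y => f^[L] y % 2 ^ ⌊c * L⌋₊ ∈ B).card : ℝ) ≤
      2 ^ L * Real.exp (-(δ' * L))

-- deps: RED BAD
-- imports: Pool.Agent.P.MP_fc15d7_nt.HZ.TCORE
def S_CORE : Prop :=
  ∀ (C : ℝ) (h : ℕ) (w : Fin h → Bool) (η : ℝ), C < 2 → 0 < η → ∃ δ : ℝ, 0 < δ ∧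
    ∀ᶠ L : ℕ in atTop, ∀ B : Finset ℕ,
      (∀ y ∈ B, y < 2 ^ L ∧ ∃ k : ℕ, (k : ℝ) ≤ C * L ∧ η * L ≤ |dev w k y|) →
      (B.card : ℝ) ≤ 2 ^ L * Real.exp (-(δ * L))

-- deps: CORE
-- imports: Pool.Agent.P.MP_fc15d7_nt.HZ.TFINAL
def S_FINAL : Prop :=
  ∀ (C : ℝ), C < 2 → ∀ (h : ℕ) (w : Fin h → Bool) (η : ℝ), 0 < η → ∃ δ : ℝ, 0 < δ ∧
    ∀ᶠ X : ℕ in atTop, (({x : ℕ | x < X ∧ ∃ k : ℕ, (k : ℝ) ≤ C * Real.logb 2 X ∧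
      η * Real.log X ≤ |(({i : ℕ | i < k ∧ ∀ j : Fin h,
        (Odd ((fun m : ℕ => 3 * m / 2 + 1)^[i + j] x) ↔ w j = true)}.ncard : ℝ)) -
          k / 2 ^ h|}.ncard : ℝ)) ≤ (X : ℝ) ^ (1 - δ)

end Pool.Agent.P.MP_fc15d7_nt.HP
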