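import Pool.Agent.P.MP_fc15d7_nt.HP.Iface
import Pool.Agent.P.MP_fc15d7_nt.HZ.Iface

/-! Step CELA. -/

set_option autoImplicit false
set_option linter.unusedSectionVars false

namespace Pool.Agent.P.MP_fc15d7_nt.HP

open Finset Filter Topology Pool.Agent.P.MP_fc15d7_nt.HZ

theorem cela_hold {ι : Type} (s : Finset ι) (A B : ι → ℝ) (hA : ∀ i, 0 ≤ A i) (hB : ∀ i, 0 ≤ B i) :
    ∑ i ∈ s, A i ^ lam * B i ^ (1 - lam) ≤ (∑ i ∈ s, A i) ^ lam * (∑ i ∈ s, B i) ^ (1 - lam) := by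
  have h1 := lam_pos
  have h2 : 0 < 1 - lam := sub_pos.2 lam_lt_one
  have := Real.inner_le_Lp_mul_Lq_of_nonneg s (f := fun i => A i ^ lam)
    (g := fun i => B i ^ (1 - lam)) (Real.HolderConjugate.inv_one_sub_inv h1 lam_lt_one)
    (fun i _ => Real.rpow_nonneg (hA i) _) (fun i _ => Real.rpow_nonneg (hB i) _)
  simpa only [Real.rpow_rpow_inv (hA _) h1.ne', Real.rpow_rpow_inv (hB _) h2.ne', one_div,
    inv_inv] using this

theorem cela_mean {G : Type} [AddCommGroup G] [Fintype G] (φ : G → ℝ) (g : G) {R : ℕ}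
    (hR : 0 < R) : ∑ x, (∑ k ∈ range R, φ (x - k • g)) / R = ∑ x, φ x := by
  rw [← sum_div, sum_comm, sum_congr rfl fun k _ => sum_sub φ _, sum_const, card_range,
    nsmul_eq_mul, mul_div_cancel_left₀ _ (Nat.cast_pos.2 hR).ne']

theorem p_CELA (hFIB : S_FIB) :
    S_CELA := by
  intro G _ _ s n g a F s0 s1 ha hF
  have e1 := cela_mean (fun x => co (pr 2 n a * F) x ^ (1 + s)) g (R := 3 ^ n) (by positivity)
  have e2 := cela_mean (fun x => co F x ^ (1 + s)) g (R := 2 * 3 ^ n) (by positivity)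
  simp only [sp]
  rw [← e1, ← e2]
  refine le_trans (sum_le_sum fun x _ => ?_) (mul_le_mul_of_nonneg_left (cela_hold univ _ _
    (fun x => ?_) fun x => ?_) (by positivity) |>.trans' (mul_sum _ _ _).ge)
  · have := hFIB s n (fun k => co F (x - k • g)) s0 s1 fun k => hF.1 _
    simp only [co_pr_mul n g a ha, co_ap_mul, sub_sub, ← add_smul]
    push_cast
    exact this
  · rw [co_ap_mul]
    exact Real.rpow_nonneg (div_nonneg (sum_nonneg fun k _ => hF.1 _) (Nat.cast_nonneg _)) _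
  · exact div_nonneg (sum_nonneg fun k _ => Real.rpow_nonneg (hF.1 _) _) (Nat.cast_nonneg _)

end Pool.Agent.P.MP_fc15d7_nt.HP
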