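import Pool.Agent.P.MP_fc15d7_nt.HP.Iface
import Pool.Agent.P.MP_fc15d7_nt.HZ.Iface

/-! Step CELL. -/

set_option autoImplicit false
set_option linter.unusedSectionVars false

namespace Pool.Agent.P.MP_fc15d7_nt.HP

open Finset Filter Topology Pool.Agent.P.MP_fc15d7_nt.HZ

theorem p_CELL (hCELA : S_CELA) :
    S_CELL := by
  intro G _ _ s n g a F hs hs1 ha hF
  have h := hCELA G s n g a F hs hs1 ha hF
  have hA : 0 < sp s (pr 2 n a * F) := sp_pos ((Pm.pr (by norm_num) n a).mul hF) s
  have hR : 1 ≤ 2 * 3 ^ n := Nat.one_le_iff_ne_zero.mpr (by positivity)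
  have hB : 0 < sp s (ap (2 * 3 ^ n) g * F) := sp_pos ((Pm.ap hR g).mul hF) s
  have hC : 0 < sp s F := sp_pos hF s
  have hE : 0 < 2 * Real.exp (s ^ 2 * n) := by positivity
  have hl := Real.log_le_log hA h
  rw [Real.log_mul (by positivity) (by positivity), Real.log_mul (by positivity) (by positivity),
    Real.log_rpow hE, Real.log_rpow hB, Real.log_rpow hC,
    Real.log_mul (by norm_num) (by positivity), Real.log_exp] at hl
  have h2 : Real.log 2 ≤ 1 := by
    have := Real.log_two_lt_d9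
    linarith
  have h2' : 0 ≤ Real.log 2 := Real.log_nonneg (by norm_num)
  have hn : (0 : ℝ) ≤ n := Nat.cast_nonneg n
  have hb : (1 + s) * (Real.log 2 + s ^ 2 * n) ≤ 2 + 2 * s ^ 2 * n := by
    have h3 : (1 + s) * Real.log 2 ≤ 2 := by nlinarith
    have h4 : 0 ≤ s ^ 2 * n := by positivity
    nlinarith
  unfold HR
  set A := Real.log (sp s (pr 2 n a * F))
  set B := Real.log (sp s (ap (2 * 3 ^ n) g * F))
  set C := Real.log (sp s F)
  have e : (1 - lam) * (-C / s) + lam * (-B / s) - (2 / s + 2 * s * n)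
      = (-((1 - lam) * C + lam * B + (2 + 2 * s ^ 2 * n))) / s := by
    field_simp
    ring
  rw [e]
  apply div_le_div_of_nonneg_right _ hs.le
  linarith

end Pool.Agent.P.MP_fc15d7_nt.HP
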