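import Pool.Agent.P.MP_fc15d7_nt.HP.Iface
import Pool.Agent.P.MP_fc15d7_nt.HZ.TCORE

/-! Step CORE. -/

set_option autoImplicit false
set_option linter.unusedSectionVars false

namespace Pool.Agent.P.MP_fc15d7_nt.HP

open Finset Filter Topology Pool.Agent.P.MP_fc15d7_nt.HZ

theorem core_exp {a m x : ℝ} (hx : 0 ≤ x) (h : m ≤ a) (h2 : Real.log 2 ≤ m / 2 * x) :
    Real.exp (-(a * x)) ≤ Real.exp (-(m / 2 * x)) / 2 := by
  have e : Real.exp (-(m / 2 * x)) / 2 = Real.exp (-(m / 2 * x) - Real.log 2) := by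
    rw [Real.exp_sub, Real.exp_log (by norm_num)]
  rw [e]
  exact Real.exp_le_exp.2 (by nlinarith)

theorem p_CORE (hRED : S_RED) (hBAD : S_BAD) :
    S_CORE := by
  classical
  intro C h w η hC hη
  obtain ⟨δ, hδ, hb⟩ := hBAD h w (η / 3) (by positivity)
  have c0 : (0 : ℝ) < max (C / 2) (1 / 2) := lt_max_of_lt_right (by norm_num)
  have c1 : max (C / 2) (1 / 2) < 1 := max_lt (by linarith) (by norm_num)
  have c2 : C / 2 ≤ max (C / 2) (1 / 2) := le_max_left _ _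
  generalize max (C / 2) (1 / 2) = c at c0 c1 c2
  obtain ⟨δ', hδ', hr⟩ := hRED c δ c0 c1 hδ
  have hm : 0 < min δ δ' / 2 := half_pos (lt_min hδ hδ')
  refine ⟨_, hm, ?_⟩
  have t : ∀ a b : ℝ, 0 < a → ∀ᶠ L : ℕ in atTop, b ≤ a * L := fun a b ha =>
    (tendsto_natCast_atTop_atTop.const_mul_atTop ha).eventually_ge_atTop b
  filter_upwards [hb, hr, t (η / 3) h (by positivity),
    t (1 - C / 2) (h + 1) (by linarith), t _ (Real.log 2) hm, eventually_ge_atTop h]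
    with L l1 l2 l3 l4 l5 l6 B hB
  have L0 : (0 : ℝ) ≤ L := Nat.cast_nonneg L
  have d1 : ⌊c * L⌋₊ ≤ L := Nat.floor_le_of_le (by nlinarith)
  have d2 : c * L < ⌊c * L⌋₊ + 1 := Nat.lt_floor_add_one _
  have s : B ⊆ bad w (η / 3 * L) L ∪ (range (2 ^ L)).filter fun y =>
      f^[L] y % 2 ^ ⌊c * L⌋₊ ∈ bad w (η / 3 * L) ⌊c * L⌋₊ := fun y hy => by
    obtain ⟨y1, k, k1, k2⟩ := hB y hy
    refine mem_union.2 ((core_split w (D := ⌊c * L⌋₊) (k := k) y1 (by positivity) l3 l6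
      (fun e => ?_) (by linarith)).imp_right fun e => mem_filter.2 ⟨mem_range.2 y1, e⟩)
    have : (k : ℝ) + h ≤ ⌊c * L⌋₊ + L := by nlinarith
    have : k + h ≤ ⌊c * L⌋₊ + L := by exact_mod_cast this
    omega
  have s1 := (card_le_card s).trans (card_union_le _ _)
  have s2 : (B.card : ℝ) ≤ (bad w (η / 3 * L) L).card + (((range (2 ^ L)).filter fun y =>
      f^[L] y % 2 ^ ⌊c * L⌋₊ ∈ bad w (η / 3 * L) ⌊c * L⌋₊).card : ℝ) := by exact_mod_cast s1
  have p2 : (0 : ℝ) ≤ 2 ^ L := by positivity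
  have s3 := (l2 _ (l1 _ d1)).trans
    (mul_le_mul_of_nonneg_left (core_exp L0 (min_le_right δ δ') l5) p2)
  have s4 := (l1 L le_rfl).trans
    (mul_le_mul_of_nonneg_left (core_exp L0 (min_le_left δ δ') l5) p2)
  linarith

end Pool.Agent.P.MP_fc15d7_nt.HP
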