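import Pool.Agent.P.MP_fc15d7_nt.HP.Iface
import Pool.Agent.P.MP_fc15d7_nt.HZ.TENTA

/-! Step ENTA. -/

set_option autoImplicit false
set_option linter.unusedSectionVars false

namespace Pool.Agent.P.MP_fc15d7_nt.HP

open Finset Filter Topology Pool.Agent.P.MP_fc15d7_nt.HZ

theorem p_ENTA (hCELL : S_CELL) (hPERC : S_PERC) (hINJ : S_INJ) (hGAPS : S_GAPS) (hMONO : S_MONO) :
    S_ENTA := by
  intro m g k l ν h1 h2 h3
  obtain ⟨q0, h0⟩ := hINJ m g k l ν h1 h2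
  refine ⟨q0, fun q hq L N s s0 s1 a1 a2 a3 => ?_⟩
  obtain ⟨A, hA, e⟩ := hGAPS _ (al N) m g q L a1
  have p0 : Pm (ap (2 ^ L) (1 : ZMod (2 ^ N))) := Pm.ap Nat.one_le_two_pow _
  have key := hPERC (ZMod (2 ^ N)) (HR s) (Fin m) univ
    (fun j => pr 2 (g * q) fun t => al N (((j : ℕ) * (g + 1) + 1) * q + t))
    (fun j => ap (2 * 3 ^ (g * q)) (gen N (((j : ℕ) * (g + 1) + 1) * q) (g * q))) _ lam _ _ _ k
    lam_nonneg lam_le_one (mul_nonneg (by positivity) (Real.log_nonneg (by norm_num)))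
    (by simpa using h3) p0 (fun _ _ => Pm.pr (by norm_num) _ _)
    (fun _ _ => Pm.ap (Nat.mul_pos two_pos (by positivity)) _)
    (fun j _ p hp => hCELL _ s (g * q) _ _ p s0 s1 (fun t ht => al_eq_gen N _ _ t ht) hp)
    fun K _ => h0 q hq L N s s0 a3 a2 K
  rw [law, e, mul_assoc A]
  refine le_trans (le_of_eq ?_) (key.trans (hMONO _ s A _ s0 hA
    ((Pm.prod _ fun _ _ => Pm.pr one_le_two _ _).mul p0)))
  simp

end Pool.Agent.P.MP_fc15d7_nt.HP
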