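import Pool.Agent.P.MP_fc15d7_nt.HP.Iface
import Pool.Agent.P.MP_fc15d7_nt.HZ.Iface

/-! Step FIB. -/

set_option autoImplicit false
set_option linter.unusedSectionVars false

namespace Pool.Agent.P.MP_fc15d7_nt.HP

open Finset Filter Topology Pool.Agent.P.MP_fc15d7_nt.HZ

theorem fib_cvx {x y s : ℝ} (hx : 0 ≤ x) (hy : 0 ≤ y) (hs : 0 < s) :
    (x + y) ^ (1 + s) ≤ 2 ^ s * (x ^ (1 + s) + y ^ (1 + s)) := by
  lift x to NNReal using hx
  lift y to NNReal using hy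
  have h := NNReal.rpow_add_le_mul_rpow_add_rpow x y (p := 1 + s) (by linarith)
  rw [add_sub_cancel_left] at h
  exact_mod_cast h

theorem p_FIB (hTENS : S_TENS) (hINTERP : S_INTERP) :
    S_FIB := by
  intro s n ψ hs h1 hψ
  have hp : 0 < 1 + s := by linarith
  have hl := lam_nonneg
  have hl' : 0 ≤ 1 - lam := sub_nonneg.2 lam_le_one
  have hR : 0 < 3 ^ n := by positivity
  have hR' : ((3 ^ n : ℕ) : ℝ) = 3 ^ n := by push_cast; rfl
  let φ : ℕ → ℝ := fun k => ψ (k % 3 ^ n) + ψ (3 ^ n + k % 3 ^ n)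
  have hφ : ∀ k, 0 ≤ φ k := fun k => add_nonneg (hψ _) (hψ _)
  have e0 : ∀ k ∈ range (3 ^ n), φ k = ψ k + ψ (3 ^ n + k) := fun k hk => by
    simp only [φ, Nat.mod_eq_of_lt (mem_range.1 hk)]
  have hT := hTENS s n φ hs h1 hφ fun k => by simp only [φ, Nat.add_mod_right]
  have hI := hINTERP s (3 ^ n) φ hs hR hφ
  have ha : ∀ k, 0 ≤ av n fun j => φ (k + j) := fun k => av_nonneg n fun j => hφ _
  have a1 : (∑ k ∈ range (3 ^ n), (av n fun j => ψ (k + j)) ^ (1 + s)) / 3 ^ n ≤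
      nm (1 + s) (3 ^ n) (fun k => av n fun j => φ (k + j)) ^ (1 + s) := by
    rw [nm_rpow hp.ne' _ ha, hR']
    refine div_le_div_of_nonneg_right (sum_le_sum fun k hk => Real.rpow_le_rpow
      (av_nonneg n fun j => hψ _) (av_mono n fun j hj => ?_) hp.le) (by positivity)
    have := mem_range.1 hk
    have : 0 < 2 ^ n := by positivity
    rcases lt_or_ge (k + j) (3 ^ n) with h | h
    · rw [e0 _ (mem_range.2 h)]
      exact le_add_of_nonneg_right (hψ _)
    · simp only [φ]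
      rw [Nat.mod_eq_sub_mod h, Nat.mod_eq_of_lt (by omega), Nat.add_sub_cancel' h]
      exact le_add_of_nonneg_left (hψ _)
  have a2 : nm 1 (3 ^ n) φ = 2 * ((∑ k ∈ range (2 * 3 ^ n), ψ k) / (2 * 3 ^ n)) := by
    rw [nm_one, sum_congr rfl e0, sum_add_distrib, two_mul (3 ^ n), sum_range_add, hR']
    field_simp
  have a3 : nm (1 + s) (3 ^ n) φ ^ (1 + s) ≤
      2 ^ (1 + s) * ((∑ k ∈ range (2 * 3 ^ n), ψ k ^ (1 + s)) / (2 * 3 ^ n)) := by
    rw [nm_rpow hp.ne' _ hφ, hR', two_mul (3 ^ n), sum_range_add, ← sum_add_distrib,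
      Real.rpow_add two_pos, Real.rpow_one]
    refine (div_le_div_of_nonneg_right (sum_le_sum fun k hk => (e0 k hk).symm ▸
      fib_cvx (hψ _) (hψ _) hs) (by positivity)).trans_eq ?_
    rw [← mul_sum]
    field_simp
  have hA : 0 ≤ (∑ k ∈ range (2 * 3 ^ n), ψ k) / (2 * 3 ^ n) :=
    div_nonneg (sum_nonneg fun k _ => hψ k) (by positivity)
  have hB : 0 ≤ (∑ k ∈ range (2 * 3 ^ n), ψ k ^ (1 + s)) / (2 * 3 ^ n) :=
    div_nonneg (sum_nonneg fun k _ => Real.rpow_nonneg (hψ k) _) (by positivity)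
  have hN := nm_nonneg (1 + s) (3 ^ n) hφ
  refine a1.trans ((Real.rpow_le_rpow (nm_nonneg _ _ ha) (hT.trans
    (mul_le_mul_of_nonneg_left hI (Real.exp_pos _).le)) hp.le).trans ?_)
  rw [a2]
  generalize (∑ k ∈ range (2 * 3 ^ n), ψ k) / (2 * 3 ^ n) = A at hA ⊢
  generalize (∑ k ∈ range (2 * 3 ^ n), ψ k ^ (1 + s)) / (2 * 3 ^ n) = B at hB a3 ⊢
  generalize nm (1 + s) (3 ^ n) φ = N at hN a3 ⊢
  have sw : ∀ {x : ℝ} (l : ℝ), 0 ≤ x → (x ^ l) ^ (1 + s) = (x ^ (1 + s)) ^ l := fun l hx => by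
    rw [← Real.rpow_mul hx, mul_comm, Real.rpow_mul hx]
  have a4 := Real.rpow_le_rpow (Real.rpow_nonneg hN _) a3 hl'
  have a5 : ((2 : ℝ) ^ (1 + s)) ^ lam * (2 ^ (1 + s)) ^ (1 - lam) = 2 ^ (1 + s) := by
    rw [← Real.rpow_add (by positivity), add_sub_cancel, Real.rpow_one]
  rw [Real.mul_rpow (by positivity) hB] at a4
  rw [Real.mul_rpow (by positivity) (by positivity), Real.mul_rpow (by positivity) (by positivity),
    sw _ hN, sw _ (by positivity), Real.mul_rpow (by positivity) hA,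
    Real.mul_rpow (by positivity) (by positivity), Real.mul_rpow (by positivity) (by positivity)]
  refine (mul_le_mul_of_nonneg_left (mul_le_mul_of_nonneg_left a4 (by positivity))
    (by positivity)).trans_eq ?_
  linear_combination (Real.exp (s ^ 2 * n) ^ (1 + s) * (A ^ (1 + s)) ^ lam * B ^ (1 - lam)) * a5

end Pool.Agent.P.MP_fc15d7_nt.HP
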