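import Pool.Agent.P.MP_fc15d7_nt.HP.Iface
import Pool.Agent.P.MP_fc15d7_nt.HZ.TFINAL

/-! Step FINAL. -/

set_option autoImplicit false
set_option linter.unusedSectionVars false

namespace Pool.Agent.P.MP_fc15d7_nt.HP

open Finset Filter Topology Pool.Agent.P.MP_fc15d7_nt.HZ

theorem p_FINAL (hCORE : S_CORE) :
    S_FINAL := by
  intro C hC h w η hη
  simp only [final_dev]
  have ht : Tendsto (fun X : ℕ => Nat.log 2 (X + 1) + 1) atTop atTop := by
    refine tendsto_atTop.2 fun n => ?_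
    filter_upwards [eventually_ge_atTop (2 ^ n)] with X hX
    have := Nat.le_log_of_pow_le (by norm_num : 1 < 2) (hX.trans (Nat.le_add_right X 1))
    omega
  obtain ⟨δ, hδ, hc⟩ := hCORE (max C 0) h w (η / 4) (max_lt hC two_pos) (by positivity)
  refine ⟨δ / 2, by positivity, ?_⟩
  filter_upwards [ht.eventually hc, ht.eventually_ge_atTop 4, eventually_ge_atTop 1,
    ht.eventually_ge_atTop ⌈6 / δ⌉₊] with X h1 h2 h3 h5
  set L := Nat.log 2 (X + 1) + 1 with hL
  have a1 : X + 1 < 2 ^ L := Nat.lt_pow_succ_log_self (by norm_num) _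
  have a2 : 2 ^ L ≤ 4 * X := by
    have := Nat.pow_log_le_self 2 (Nat.add_one_ne_zero X)
    rw [hL, pow_succ]
    omega
  have x1 : (1 : ℝ) ≤ X := by exact_mod_cast h3
  have l4 : (4 : ℝ) ≤ L := by exact_mod_cast h2
  have a3 : (X : ℝ) ≤ 2 ^ L := by exact_mod_cast (by omega : X ≤ 2 ^ L)
  have a4 : (2 : ℝ) ^ L ≤ 4 * X := by exact_mod_cast a2
  have a5 : Real.logb 2 X ≤ L := by
    rw [Real.logb_le_iff_le_rpow (by norm_num) (by linarith), Real.rpow_natCast]
    exact a3
  have a6 : (L : ℝ) / 4 ≤ Real.log X := by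
    have b1 := Real.log_le_log (by positivity) a4
    rw [Real.log_pow, Real.log_mul (by norm_num) (by linarith),
      show (4 : ℝ) = 2 ^ 2 by norm_num, Real.log_pow] at b1
    push_cast at b1
    nlinarith [Real.log_two_gt_d9]
  set S := {x : ℕ | x < X ∧ ∃ k : ℕ, (k : ℝ) ≤ C * Real.logb 2 X ∧
    η * Real.log X ≤ |dev w k (x + 2)|} with hS
  have hfin : S.Finite := (Set.finite_Iio X).subset fun x hx => hx.1
  have h4 := h1 (hfin.toFinset.image (· + 2)) (by
    intro y hy
    obtain ⟨x, hx, rfl⟩ := mem_image.1 hy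
    obtain ⟨c1, k, c2, c3⟩ := hfin.mem_toFinset.1 hx
    refine ⟨by omega, k, c2.trans ?_, le_trans ?_ c3⟩
    · exact mul_le_mul (le_max_left _ _) a5 (Real.logb_nonneg (by norm_num) x1) (le_max_right _ _)
    · nlinarith)
  rw [card_image_of_injective _ (add_left_injective 2), ← Set.ncard_eq_toFinset_card S hfin] at h4
  have a7 : Real.log X ≤ L := by
    have b1 := Real.log_le_log (by linarith) a3
    rw [Real.log_pow] at b1
    nlinarith [Real.log_two_lt_d9]
  have a8 : 6 ≤ δ * L := by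
    have := (div_le_iff₀ hδ).1 (Nat.ceil_le.1 h5)
    linarith
  have a9 : 4 ≤ Real.exp (δ * L / 2) := by linarith [Real.add_one_le_exp (δ * L / 2)]
  refine h4.trans ?_
  calc (2 : ℝ) ^ L * Real.exp (-(δ * L)) ≤ Real.exp (δ * L / 2) * X * Real.exp (-(δ * L)) := by
        gcongr
        exact a4.trans (by gcongr)
    _ = X * Real.exp (-(δ / 2 * L)) := by
        rw [mul_right_comm, ← Real.exp_add, mul_comm]
        congr 2
        ring
    _ ≤ X * Real.exp (-(δ / 2 * Real.log X)) := by gcongr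
    _ = (X : ℝ) ^ (1 - δ / 2) := by
        rw [Real.rpow_def_of_pos (by linarith), mul_sub, mul_one, sub_eq_add_neg, Real.exp_add,
          Real.exp_log (by linarith), mul_comm (δ / 2)]

end Pool.Agent.P.MP_fc15d7_nt.HP
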