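import Pool.Agent.P.MP_fc15d7_nt.HP.Iface
import Pool.Agent.P.MP_fc15d7_nt.HZ.Iface

/-! Step HC. -/

set_option autoImplicit false
set_option linter.unusedSectionVars false

namespace Pool.Agent.P.MP_fc15d7_nt.HP

open Finset Filter Topology Pool.Agent.P.MP_fc15d7_nt.HZ

theorem hc_exp {y : ℝ} (h : y ≤ 1) : Real.exp y ≤ 1 + y + y ^ 2 := by
  rcases le_total (-1) y with h1 | h1
  · have := (abs_le.1 (Real.abs_exp_sub_one_sub_id_le (abs_le.2 ⟨h1, h⟩))).2
    linarith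
  · have := Real.exp_le_one_iff.2 (by linarith : y ≤ 0)
    nlinarith

theorem hc_sq {x : ℝ} (h0 : 0 < x) (h : x ≤ 3 / 2) : x * Real.log x ^ 2 ≤ 1 := by
  rcases le_total 1 x with h1 | h1
  · have h2 := Real.log_nonneg h1
    have h3 := Real.log_le_sub_one_of_pos h0
    have h4 : Real.log x ^ 2 ≤ 1 / 4 := by nlinarith
    nlinarith
  · obtain ⟨t, ht, rfl⟩ : ∃ t : ℝ, 0 < t ∧ x = t ^ 2 :=
      ⟨√x, Real.sqrt_pos.2 h0, (Real.sq_sqrt h0.le).symm⟩
    have h2 := nl_le ht.le (by norm_num : (0 : ℝ) < 2⁻¹)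
    have h3 := Real.negMulLog_nonneg ht.le (by nlinarith)
    have h4 := Real.log_two_lt_d9
    rw [Real.log_inv] at h2
    have h5 : Real.negMulLog t ≤ 1 / 2 := by nlinarith
    rw [Real.negMulLog] at h3 h5
    rw [Real.log_pow]
    push_cast
    nlinarith

theorem hc_up {s x : ℝ} (hs : 0 < s) (hs1 : s ≤ 1) (h0 : 0 ≤ x) (h : x ≤ 3 / 2) :
    x ^ (1 + s) ≤ x - s * Real.negMulLog x + s ^ 2 := by
  rcases h0.eq_or_lt with rfl | h0
  · rw [Real.zero_rpow (by linarith)]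
    simpa using sq_nonneg s
  have h1 := Real.log_le_sub_one_of_pos h0
  have h2 := hc_exp (y := Real.log x * s) (by
    rcases le_total (Real.log x) 0 with h3 | h3 <;> nlinarith)
  have h3 := mul_le_mul_of_nonneg_left (hc_sq h0 h) (sq_nonneg s)
  rw [Real.rpow_add h0, Real.rpow_one, Real.rpow_def_of_pos h0, Real.negMulLog]
  nlinarith [mul_le_mul_of_nonneg_left h2 h0.le]

theorem hc_lo {r x : ℝ} (u : ℝ) (hr : 0 < r) (h0 : 0 ≤ x) :
    Real.exp u * (x - (r - 1) * Real.negMulLog x - x * u) ≤ x ^ r := by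
  rcases h0.eq_or_lt with rfl | h0
  · rw [Real.zero_rpow hr.ne']
    simp
  have h1 := Real.add_one_le_exp (Real.log x * (r - 1) - u)
  have h2 : x ^ r = x * (Real.exp u * Real.exp (Real.log x * (r - 1) - u)) := by
    rw [← Real.exp_add, add_sub_cancel, ← Real.rpow_def_of_pos h0, Real.rpow_sub_one h0.ne',
      mul_div_cancel₀ _ h0.ne']
  rw [h2, Real.negMulLog]
  nlinarith [mul_le_mul_of_nonneg_left h1 (mul_pos h0 (Real.exp_pos u)).le]

theorem hc_hom {p M x y z : ℝ} (hp : 0 < p) (hM : 0 ≤ M) (hx : 0 ≤ x) (hy : 0 ≤ y) (hz : 0 ≤ z) :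
    (((M * x) ^ p + (M * y) ^ p + (M * z) ^ p) / 3) ^ p⁻¹ =
      M * ((x ^ p + y ^ p + z ^ p) / 3) ^ p⁻¹ := by
  rw [Real.mul_rpow hM hx, Real.mul_rpow hM hy, Real.mul_rpow hM hz, ← mul_add, ← mul_add,
    mul_div_assoc, Real.mul_rpow (by positivity) (by positivity), Real.rpow_rpow_inv hM hp.ne']

theorem hc_one (hSD : S_SD) {s a b c : ℝ} (hs : 0 < s) (hs1 : s ≤ 1) (ha : 0 ≤ a) (hb : 0 ≤ b)
    (hc : 0 ≤ c) (h : a + b + c = 3) :
    ((((a + b) / 2) ^ (1 + s) + ((b + c) / 2) ^ (1 + s) + ((c + a) / 2) ^ (1 + s)) / 3) ^ (1 + s)⁻¹ ≤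
      Real.exp (s ^ 2) * ((a ^ pe s + b ^ pe s + c ^ pe s) / 3) ^ (pe s)⁻¹ := by
  have h1 := hSD a b c ha hb hc
  rw [h, div_self (by norm_num : (3 : ℝ) ≠ 0), Real.negMulLog_one, mul_zero, add_zero] at h1
  change (1 - lam) * _ ≤ _ at h1
  obtain ⟨D, hD⟩ : ∃ D, D = -(Real.negMulLog a + Real.negMulLog b + Real.negMulLog c) / 3 :=
    ⟨_, rfl⟩
  have hr := pe_pos hs
  have u1 := hc_up (x := (a + b) / 2) hs hs1 (by positivity) (by linarith)
  have u2 := hc_up (x := (b + c) / 2) hs hs1 (by positivity) (by linarith)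
  have u3 := hc_up (x := (c + a) / 2) hs hs1 (by positivity) (by linarith)
  have u4 : (((a + b) / 2) ^ (1 + s) + ((b + c) / 2) ^ (1 + s) + ((c + a) / 2) ^ (1 + s)) / 3 ≤
      Real.exp (s * ((1 - lam) * D) + s ^ 2) := by
    refine le_trans ?_ (Real.add_one_le_exp _)
    have := mul_le_mul_of_nonneg_left h1 hs.le
    rw [hD]
    nlinarith
  have l1 := hc_lo ((pe s - 1) * D) hr ha
  have l2 := hc_lo ((pe s - 1) * D) hr hb
  have l3 := hc_lo ((pe s - 1) * D) hr hc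
  have l4 : Real.exp ((pe s - 1) * D) ≤ (a ^ pe s + b ^ pe s + c ^ pe s) / 3 := by
    have e : a - (pe s - 1) * Real.negMulLog a - a * ((pe s - 1) * D) +
        (b - (pe s - 1) * Real.negMulLog b - b * ((pe s - 1) * D)) +
        (c - (pe s - 1) * Real.negMulLog c - c * ((pe s - 1) * D)) = 3 := by
      linear_combination (1 - (pe s - 1) * D) * h - 3 * (pe s - 1) * hD
    have e2 := congrArg (Real.exp ((pe s - 1) * D) * ·) e
    simp only [mul_add] at e2
    linarith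
  refine (Real.rpow_le_rpow (by positivity) u4 (by positivity)).trans (le_trans ?_
    (mul_le_mul_of_nonneg_left (Real.rpow_le_rpow (Real.exp_pos _).le l4 (by positivity))
      (Real.exp_pos _).le))
  rw [← Real.exp_mul, ← Real.exp_mul, ← Real.exp_add, Real.exp_le_exp]
  have e1 : (pe s - 1) * D * (pe s)⁻¹ = (1 - (pe s)⁻¹) * D := by field_simp
  have e2 : (s * ((1 - lam) * D) + s ^ 2) * (1 + s)⁻¹ =
      s ^ 2 / (1 + s) + (1 - lam) * s / (1 + s) * D := by ring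
  rw [e1, one_sub_inv_pe hs, e2]
  exact add_le_add (div_le_self (sq_nonneg s) (by linarith)) le_rfl

theorem p_HC (hSD : S_SD) :
    S_HC := by
  intro s a b c hs hs1 ha hb hc
  obtain ⟨M, x, y, z, hM, hx, hy, hz, h, rfl, rfl, rfl⟩ : ∃ M x y z : ℝ, 0 ≤ M ∧ 0 ≤ x ∧ 0 ≤ y ∧
      0 ≤ z ∧ x + y + z = 3 ∧ a = M * x ∧ b = M * y ∧ c = M * z := by
    rcases (by positivity : 0 ≤ a + b + c).eq_or_lt with h | h
    · exact ⟨0, 1, 1, 1, le_rfl, zero_le_one, zero_le_one, zero_le_one, by norm_num, by linarith,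
        by linarith, by linarith⟩
    · exact ⟨(a + b + c) / 3, a / ((a + b + c) / 3), b / ((a + b + c) / 3), c / ((a + b + c) / 3),
        by positivity, by positivity, by positivity, by positivity, by field_simp,
        by field_simp, by field_simp, by field_simp⟩
  rw [← mul_add, ← mul_add, ← mul_add, mul_div_assoc, mul_div_assoc, mul_div_assoc,
    hc_hom (by linarith) hM (by positivity) (by positivity) (by positivity),
    hc_hom (pe_pos hs) hM hx hy hz, mul_left_comm]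
  exact mul_le_mul_of_nonneg_left (hc_one hSD hs hs1 hx hy hz h) hM

end Pool.Agent.P.MP_fc15d7_nt.HP
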