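import Pool.Agent.P.MP_fc15d7_nt.HP.Iface
import Pool.Agent.P.MP_fc15d7_nt.HZ.Iface

/-! Step HOLD. -/

set_option autoImplicit false
set_option linter.unusedSectionVars false

namespace Pool.Agent.P.MP_fc15d7_nt.HP

open Finset Filter Topology Pool.Agent.P.MP_fc15d7_nt.HZ

theorem p_HOLD :
    S_HOLD := by
  intro G _ _ s β p B hs hp hB
  have h0 : 0 < 1 + s := by linarith
  have h1 := Real.rpow_sum_le_const_mul_sum_rpow_of_nonneg B (f := co p) (p := 1 + s) (by linarith)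
    fun x _ => hp.1 x
  have h2 : ∑ x ∈ B, co p x ^ (1 + s) ≤ sp s p := sum_le_sum_of_subset_of_nonneg (subset_univ _)
    fun x _ _ => Real.rpow_nonneg (hp.1 x) _
  have h3 : (B.card : ℝ) ^ (1 + s - 1) ≤ Real.exp β ^ s := by
    rw [add_sub_cancel_left]
    exact Real.rpow_le_rpow (Nat.cast_nonneg _) hB hs.le
  rw [← Real.rpow_le_rpow_iff (sum_nonneg fun x _ => hp.1 x) (Real.exp_pos _).le h0]
  refine h1.trans ((mul_le_mul h3 h2 (sum_nonneg fun x _ => Real.rpow_nonneg (hp.1 x) _)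
    (by positivity)).trans_eq ?_)
  rw [sp_eq hp hs, ← Real.exp_mul, ← Real.exp_mul, ← Real.exp_add]
  congr 1
  field_simp
  ring

end Pool.Agent.P.MP_fc15d7_nt.HP
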