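import Pool.Agent.P.MP_fc15d7_nt.HP.Iface
import Pool.Agent.P.MP_fc15d7_nt.HZ.TINJ

/-! Step INJ. -/

set_option autoImplicit false
set_option linter.unusedSectionVars false

namespace Pool.Agent.P.MP_fc15d7_nt.HP

open Finset Filter Topology Pool.Agent.P.MP_fc15d7_nt.HZ

theorem inj_exp' {m g q j : ℕ} (hj : j < m) :
    m * (g + 1) * q = (j * (g + 1) + 1) * q + g * q + (m - 1 - j) * (g + 1) * q := by
  obtain ⟨s, rfl⟩ := Nat.exists_eq_add_of_lt hj
  rw [show j + s + 1 - 1 - j = s by omega]
  ring

theorem p_INJ (hMDS : S_MDS) (hFLAT : S_FLAT) (hMONO : S_MONO) :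
    S_INJ := by
  classical
  intro m g k l ν hl hν
  obtain ⟨q0, hq0⟩ := hMDS m g k l ν hl hν
  refine ⟨q0, fun q hq L N s hs0 hN hL K => ?_⟩
  obtain ⟨K', hK'K, hK'c⟩ := Finset.exists_subset_card_eq (s := K) (n := min K.card k)
    (min_le_left _ _)
  set U : Fin m → GA (ZMod (2 ^ N)) := fun j =>
    ap (2 * 3 ^ (g * q)) (gen N (((j : ℕ) * (g + 1) + 1) * q) (g * q)) with hU
  have h23 : 1 ≤ 2 * 3 ^ (g * q) := Nat.pos_of_ne_zero (by positivity)
  have hPU : ∀ j, Pm (U j) := fun j => Pm.ap h23 _
  have hPa : Pm (ap (2 ^ L) (1 : ZMod (2 ^ N))) := Pm.ap Nat.one_le_two_pow _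
  have hmono : HR s ((∏ j ∈ K', U j) * ap (2 ^ L) 1) ≤ HR s ((∏ j ∈ K, U j) * ap (2 ^ L) 1) := by
    rw [← prod_sdiff hK'K, mul_assoc]
    exact hMONO _ s _ _ hs0 (Pm.prod _ fun j _ => hPU j) ((Pm.prod _ fun j _ => hPU j).mul hPa)
  refine le_trans ?_ hmono
  let R : Option (Fin m) → ℕ := fun i =>
    i.elim (2 ^ L) fun j => if j ∈ K' then 2 * 3 ^ (g * q) else 1
  let b : Option (Fin m) → ZMod (2 ^ N) := fun i =>
    i.elim 1 fun j => gen N (((j : ℕ) * (g + 1) + 1) * q) (g * q)
  have hF := hFLAT (ZMod (2 ^ N)) s _ R b hs0 ?_ ?_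
  · have e1 : ∏ i, ap (R i) (b i) = (∏ j ∈ K', U j) * ap (2 ^ L) 1 := by
      rw [Fintype.prod_option, mul_comm]
      congr 1
      rw [← Finset.prod_subset (subset_univ K')]
      · refine prod_congr rfl fun j hj => ?_
        simp only [R, b, Option.elim, if_pos hj, hU]
      · intro j _ hj
        simp only [R, b, Option.elim, if_neg hj, inj_ap_one]
    have e2 : L * Real.log 2 + (g * q * Real.log 3) * min (K.card : ℝ) k ≤
        ∑ i, Real.log (R i) := by
      rw [Fintype.sum_option, ← Finset.sum_subset (subset_univ K')]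
      · have : ∀ j ∈ K', (g * q * Real.log 3 : ℝ) ≤ Real.log (R (some j)) := by
          intro j hj
          simp only [R, Option.elim, if_pos hj]
          push_cast
          rw [Real.log_mul (by norm_num) (by positivity), Real.log_pow]
          have := Real.log_pos (show (1 : ℝ) < 2 by norm_num)
          push_cast
          linarith
        have h2 := sum_le_sum this
        rw [sum_const, hK'c, nsmul_eq_mul] at h2
        have h3 : Real.log (R none) = L * Real.log 2 := by
          simp only [R, Option.elim]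
          push_cast
          rw [Real.log_pow]
        push_cast at h2
        rw [h3]
        linarith
      · intro j _ hj
        simp [R, if_neg hj]
    rw [e1] at hF
    exact e2.trans hF
  · rintro (_ | p)
    · exact Nat.one_le_two_pow
    · simp only [R, Option.elim]
      split_ifs
      · exact h23
      · exact le_rfl
  · intro d d' hd hd' hs
    let c : Fin m → ℤ := fun j => (d (some j) : ℤ) - d' (some j)
    have key := hq0 q hq N ((d none : ℤ) - d' none) c hN ?_ ?_ ?_ ?_
    · funext i
      rcases i with _ | j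
      · have := key.1
        omega
      · have h2 : (d (some j) : ℤ) - d' (some j) = 0 := key.2 j
        omega
    · have h1 : d none < 2 ^ L := hd none
      have h2 : d' none < 2 ^ L := hd' none
      have h3 : (d none : ℝ) ≤ 2 ^ L := by exact_mod_cast h1.le
      have h4 : (d' none : ℝ) ≤ 2 ^ L := by exact_mod_cast h2.le
      have h5 : (2 : ℝ) ^ L ≤ 2 ^ (l * q) := by
        rw [← Real.rpow_natCast]
        exact Real.rpow_le_rpow_of_exponent_le (by norm_num) hL
      have h6 : (0 : ℝ) ≤ d none := Nat.cast_nonneg _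
      have h7 : (0 : ℝ) ≤ d' none := Nat.cast_nonneg _
      push_cast
      rw [abs_le]
      constructor <;> linarith
    · intro j
      have h0 : R (some j) ≤ 2 * 3 ^ (g * q) := by
        simp only [R, Option.elim]
        split_ifs
        · exact le_rfl
        · exact h23
      have h1 : (d (some j) : ℤ) ≤ 2 * 3 ^ (g * q) := by exact_mod_cast (hd (some j)).le.trans h0
      have h2 : (d' (some j) : ℤ) ≤ 2 * 3 ^ (g * q) := by exact_mod_cast (hd' (some j)).le.trans h0
      have h3 : (0 : ℤ) ≤ d (some j) := Int.natCast_nonneg _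
      have h4 : (0 : ℤ) ≤ d' (some j) := Int.natCast_nonneg _
      simp only [c]
      rw [abs_le]
      constructor <;> linarith
    · refine le_trans (card_le_card (t := K') ?_) (hK'c ▸ min_le_right _ _)
      intro j hj
      by_contra hjK
      refine (mem_filter.1 hj).2 ?_
      have h1 := hd (some j)
      have h2 := hd' (some j)
      simp only [R, Option.elim, if_neg hjK] at h1 h2
      simp only [c]
      omega
    · have hz := (ZMod.intCast_zmod_eq_zero_iff_dvd (3 ^ (m * (g + 1) * q) * ((d none : ℤ) - d' none) +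
        ∑ j : Fin m, 2 ^ (((j : ℕ) * (g + 1) + 1) * q) * 3 ^ ((m - 1 - j) * (g + 1) * q) * c j)
        (2 ^ N)).1 ?_
      · exact_mod_cast hz
      have hc : ∀ j : Fin m, (2 : ZMod (2 ^ N)) ^ (((j : ℕ) * (g + 1) + 1) * q) *
          3 ^ ((m - 1 - j) * (g + 1) * q) * ((c j : ℤ) : ZMod (2 ^ N)) =
          3 ^ (m * (g + 1) * q) * (d (some j) • b (some j) - d' (some j) • b (some j)) := by
        intro j
        have h1 := three_pow_mul_gen N (((j : ℕ) * (g + 1) + 1) * q) (g * q)
          ((m - 1 - j) * (g + 1) * q)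
        rw [← inj_exp' j.2] at h1
        simp only [c, b, Option.elim, nsmul_eq_mul]
        push_cast
        linear_combination (-((d (some j) : ZMod (2 ^ N)) - d' (some j))) * h1
      rw [Fintype.sum_option, Fintype.sum_option] at hs
      push_cast
      rw [sum_congr rfl fun j _ => hc j, ← mul_sum, sum_sub_distrib]
      simp only [b, Option.elim, nsmul_eq_mul, mul_one] at hs ⊢
      linear_combination (3 : ZMod (2 ^ N)) ^ (m * (g + 1) * q) * hs

end Pool.Agent.P.MP_fc15d7_nt.HP
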