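import Pool.Agent.P.MP_fc15d7_nt.HP.Iface
import Pool.Agent.P.MP_fc15d7_nt.HZ.Iface

/-! Step INTERP. -/

set_option autoImplicit false
set_option linter.unusedSectionVars false

namespace Pool.Agent.P.MP_fc15d7_nt.HP

open Finset Filter Topology Pool.Agent.P.MP_fc15d7_nt.HZ

theorem holder_interp (I : Finset ℕ) (u v : ℕ → ℝ) (hu : ∀ k, 0 ≤ u k) (hv : ∀ k, 0 ≤ v k)
    {a b : ℝ} (ha : 0 < a) (hb : 0 < b) (hab : a + b = 1) :
    ∑ k ∈ I, u k ^ a * v k ^ b ≤ (∑ k ∈ I, u k) ^ a * (∑ k ∈ I, v k) ^ b := by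
  have h := Real.inner_le_Lp_mul_Lq_of_nonneg I (Real.HolderConjugate.inv_inv ha hb hab)
    (f := fun k => u k ^ a) (g := fun k => v k ^ b) (fun k _ => Real.rpow_nonneg (hu k) _)
    (fun k _ => Real.rpow_nonneg (hv k) _)
  simp only [one_div, inv_inv, Real.rpow_rpow_inv (hu _) ha.ne',
    Real.rpow_rpow_inv (hv _) hb.ne'] at h
  exact h

theorem p_INTERP :
    S_INTERP := by
  intro s R φ hs hR hφ
  have hr := pe_pos hs
  have h1 := lam_pos
  have h2 : 0 < 1 - lam := sub_pos.2 lam_lt_one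
  have hR' : (0 : ℝ) < R := by exact_mod_cast hR
  have hab : pe s * lam + pe s * ((1 - lam) / (1 + s)) = 1 := by
    rw [← mul_add, ← inv_pe, mul_inv_cancel₀ hr.ne']
  have ha : 0 < pe s * lam := by positivity
  have hb : 0 < pe s * ((1 - lam) / (1 + s)) := by positivity
  have h := holder_interp (range R) φ (fun k => φ k ^ (1 + s)) hφ
    (fun k => Real.rpow_nonneg (hφ k) _) ha hb hab
  have e1 : ∀ k, φ k ^ (pe s * lam) * (φ k ^ (1 + s)) ^ (pe s * ((1 - lam) / (1 + s))) =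
      φ k ^ pe s := by
    intro k
    rw [← Real.rpow_mul (hφ k), ← Real.rpow_add_of_nonneg (hφ k) ha.le (by positivity)]
    congr 1
    field_simp
    ring
  simp only [e1] at h
  have hU : 0 ≤ ∑ k ∈ range R, φ k := sum_nonneg fun k _ => hφ k
  have hV : 0 ≤ ∑ k ∈ range R, φ k ^ (1 + s) := sum_nonneg fun k _ => Real.rpow_nonneg (hφ k) _
  have hW : 0 ≤ ∑ k ∈ range R, φ k ^ pe s := sum_nonneg fun k _ => Real.rpow_nonneg (hφ k) _
  have h3 : (∑ k ∈ range R, φ k ^ pe s) / R ≤ ((∑ k ∈ range R, φ k) / R) ^ (pe s * lam) *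
      ((∑ k ∈ range R, φ k ^ (1 + s)) / R) ^ (pe s * ((1 - lam) / (1 + s))) := by
    rw [Real.div_rpow hU hR'.le, Real.div_rpow hV hR'.le, div_mul_div_comm,
      ← Real.rpow_add hR', hab, Real.rpow_one]
    exact div_le_div_of_nonneg_right h hR'.le
  have h4 := Real.rpow_le_rpow (div_nonneg hW hR'.le) h3 (inv_pos.2 hr).le
  rw [Real.mul_rpow (by positivity) (by positivity), ← Real.rpow_mul (by positivity),
    ← Real.rpow_mul (by positivity)] at h4
  rw [nm_one, nm, nm, ← Real.rpow_mul (by positivity)]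
  convert h4 using 3 <;> field_simp

end Pool.Agent.P.MP_fc15d7_nt.HP
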