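import Pool.Agent.P.MP_fc15d7_nt.HP.Iface
import Pool.Agent.P.MP_fc15d7_nt.HZ.Iface

/-! Step MONO. -/

set_option autoImplicit false
set_option linter.unusedSectionVars false

namespace Pool.Agent.P.MP_fc15d7_nt.HP

open Finset Filter Topology Pool.Agent.P.MP_fc15d7_nt.HZ

theorem p_MONO :
    S_MONO := by
  intro G _ _ s A p hs hA hp
  have h : sp s (A * p) ≤ sp s p := by
    calc sp s (A * p) ≤ ∑ x, ∑ y, co A y * co p (x - y) ^ (1 + s) := sum_le_sum fun x _ => by
          rw [co_mul]
          exact Real.rpow_arith_mean_le_arith_mean_rpow univ _ _ (fun y _ => hA.1 y) hA.2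
            (fun y _ => hp.1 _) (by linarith)
      _ = ∑ y, co A y * sp s p := by
          rw [sum_comm]
          refine sum_congr rfl fun y _ => ?_
          rw [← mul_sum, sp]
          exact congrArg _ (Equiv.sum_comp (Equiv.subRight y) fun x => co p x ^ (1 + s))
      _ = _ := by rw [← sum_mul, hA.2, one_mul]
  exact div_le_div_of_nonneg_right (neg_le_neg (Real.log_le_log (sp_pos (hA.mul hp) s) h)) hs.le

end Pool.Agent.P.MP_fc15d7_nt.HP
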