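import Pool.Agent.P.MP_fc15d7_nt.HP.Iface
import Pool.Agent.P.MP_fc15d7_nt.HZ.Iface

/-! Step NM. -/

set_option autoImplicit false
set_option linter.unusedSectionVars false

namespace Pool.Agent.P.MP_fc15d7_nt.HP

open Finset Filter Topology Pool.Agent.P.MP_fc15d7_nt.HZ

theorem nm_eq {r : ℝ} (R : ℕ) {φ : ℕ → ℝ} (h : ∀ k, 0 ≤ φ k) :
    nm r R φ = (∑ k ∈ range R, φ k ^ r) ^ (1 / r) / (R : ℝ) ^ r⁻¹ := by
  rw [nm, Real.div_rpow (sum_nonneg fun k _ => Real.rpow_nonneg (h k) _) (Nat.cast_nonneg _),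
    one_div]

theorem nm_half {r : ℝ} (hr : 1 ≤ r) (R : ℕ) {φ : ℕ → ℝ} (h : ∀ k, 0 ≤ φ k) :
    nm r R (fun k => φ k / 2) = nm r R φ / 2 := by
  have r0 : r ≠ 0 := by positivity
  have e : ∀ k, (φ k / 2) ^ r = φ k ^ r / 2 ^ r := fun k => Real.div_rpow (h k) (by norm_num) r
  rw [nm, nm, sum_congr rfl fun k _ => e k, ← sum_div, div_right_comm,
    Real.div_rpow (div_nonneg (sum_nonneg fun k _ => Real.rpow_nonneg (h k) _) (Nat.cast_nonneg _))
      (by positivity), Real.rpow_rpow_inv (by norm_num) r0]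

theorem p_NM :
    S_NM := by
  refine ⟨fun r R φ ψ hr h1 h2 => ?_, fun R φ => ?_, fun R d φ h => ?_⟩
  · have h3 : ∀ k, 0 ≤ φ k + ψ k := fun k => add_nonneg (h1 k) (h2 k)
    rw [nm_half hr R h3, nm_eq R h3, nm_eq R h1, nm_eq R h2, ← add_div]
    gcongr
    exact Real.Lp_add_le_of_nonneg _ hr (fun k _ => h1 k) fun k _ => h2 k
  · induction R with
    | zero => simp
    | succ R ih =>
      rw [show 3 * (R + 1) = 3 * R + 1 + 1 + 1 by ring, sum_range_succ, sum_range_succ,
        sum_range_succ, ih]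
      simp only [sum_range_succ, range_zero, sum_empty, zero_add]
      rw [add_comm 1 (3 * R), add_comm 2 (3 * R)]
      ring
  · induction d with
    | zero => simp
    | succ d ih =>
      have a := sum_range_succ (fun k => φ (k + d)) R
      have b := sum_range_succ' (fun k => φ (k + d)) R
      have c : ∑ k ∈ range R, φ (k + 1 + d) = ∑ k ∈ range R, φ (k + (d + 1)) :=
        sum_congr rfl fun k _ => by rw [add_assoc, add_comm 1 d]
      rw [add_comm R d, h] at a
      rw [zero_add, c] at b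
      linarith

end Pool.Agent.P.MP_fc15d7_nt.HP
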