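import Pool.Agent.P.MP_fc15d7_nt.HP.Iface
import Pool.Agent.P.MP_fc15d7_nt.HZ.TPERC

/-! Step PERC. -/

set_option autoImplicit false
set_option linter.unusedSectionVars false

namespace Pool.Agent.P.MP_fc15d7_nt.HP

open Finset Filter Topology Pool.Agent.P.MP_fc15d7_nt.HZ

theorem p_PERC :
    S_PERC := by
  classical
  intro G _ _ Φ ι J T U p l E b ρ k l0 l1 hρ hk hp hT hU hc hb
  obtain ⟨d, hd⟩ : ∃ d, d = l * J.card - k := ⟨_, rfl⟩
  have d0 : 0 < d := by linarith
  have key : ∀ I : Finset ι, I ⊆ J → ∀ K ⊆ J, Disjoint I K →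
      b + ρ * (k - ((K.card + l * I.card - l * J.card) ^ 2 + I.card * (l * (1 - l))) / (4 * d)) -
        I.card * E ≤ Φ ((∏ j ∈ I, T j) * ((∏ j ∈ K, U j) * p)) := by
    intro I
    induction I using Finset.induction_on with
    | empty =>
      intro _ K hK _
      simp only [card_empty, Nat.cast_zero, mul_zero, add_zero, zero_mul, sub_zero, prod_empty,
        one_mul]
      refine le_trans (add_le_add le_rfl (mul_le_mul_of_nonneg_left (le_min ?_ ?_) hρ)) (hb K hK)
      · rw [sub_le_comm, le_div_iff₀ (by positivity), show l * J.card = d + k by linarith]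
        nlinarith [sq_nonneg (d - (k - K.card))]
      · exact sub_le_self _ (by positivity)
    | insert j I hj ih =>
      intro hI K hK hIK
      have jJ := hI (mem_insert_self j I)
      have IJ := (subset_insert j I).trans hI
      rw [disjoint_insert_left] at hIK
      have h1 := ih IJ K hK hIK.2
      have h2 := ih IJ (insert j K) (insert_subset jJ hK) (disjoint_insert_right.2 ⟨hj, hIK.2⟩)
      have h3 := hc j jJ _ ((Pm.prod I fun i hi => hT i (IJ hi)).mul
        ((Pm.prod K fun i hi => hU i (hK hi)).mul hp))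
      rw [prod_insert hIK.1, card_insert_of_notMem hIK.1, mul_assoc (U j), mul_left_comm _ (U j)] at h2
      rw [prod_insert hj, card_insert_of_notMem hj, mul_assoc (T j)]
      refine le_trans (le_of_eq ?_) ((sub_le_sub_right (add_le_add
        (mul_le_mul_of_nonneg_left h1 (sub_nonneg.2 l1)) (mul_le_mul_of_nonneg_left h2 l0)) E).trans h3)
      push_cast
      field_simp
      ring
  have h := key J Subset.rfl ∅ (empty_subset _) (disjoint_empty_right _)
  rw [prod_empty, one_mul] at h
  refine le_trans (sub_le_sub_right (add_le_add le_rfl (mul_le_mul_of_nonneg_left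
    (sub_le_sub_left ?_ k) hρ)) _) h
  rw [← hd, div_le_div_iff₀ (by positivity) (by positivity)]
  simp only [card_empty, Nat.cast_zero, zero_add, sub_self]
  nlinarith [mul_nonneg (mul_nonneg d0.le (Nat.cast_nonneg J.card)) (sq_nonneg (2 * l - 1))]

end Pool.Agent.P.MP_fc15d7_nt.HP
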