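import Pool.Agent.P.MP_fc15d7_nt.HP.Iface
import Pool.Agent.P.MP_fc15d7_nt.HZ.Iface

/-! Step RED. -/

set_option autoImplicit false
set_option linter.unusedSectionVars false

namespace Pool.Agent.P.MP_fc15d7_nt.HP

open Finset Filter Topology Pool.Agent.P.MP_fc15d7_nt.HZ

theorem p_RED (hREDA : S_REDA) (hENT : S_ENT) :
    S_RED := by
  intro c δ hc hc1 hδ
  set s : ℝ := min 1 (δ / 8) with hs
  have s0 : 0 < s := lt_min one_pos (by positivity)
  have s1 : s ≤ 1 := min_le_left _ _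
  have s2 : s ≤ δ / 8 := min_le_right _ _
  refine ⟨s * δ / 8, by positivity, ?_⟩
  filter_upwards [hENT c (δ / 4) s hc hc1 (by positivity) s0 s1,
    tendsto_natCast_atTop_atTop.eventually_ge_atTop (4 / δ : ℝ)] with L h1 h2 B hB
  set D := ⌊c * L⌋₊ with hD
  have hL : (0 : ℝ) ≤ L := Nat.cast_nonneg L
  have h3 : 4 ≤ δ * L := by rwa [div_le_iff₀' hδ] at h2
  have h4 : Real.log 2 ≤ 1 := by linarith [Real.log_le_sub_one_of_pos (by norm_num : (0 : ℝ) < 2)]
  have h5 := hREDA L D B s (Real.log 2 + ((L + D : ℕ) : ℝ) * Real.log 2 - δ * L) s0 (by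
    rw [sub_eq_add_neg, Real.exp_add, Real.exp_add, Real.exp_nat_mul,
      Real.exp_log (by norm_num), pow_add, mul_assoc 2 (_ * _), mul_assoc (2 ^ L), ← mul_assoc 2]
    exact mul_le_mul_of_nonneg_left hB (by positivity))
  rw [div_le_iff₀' (by positivity)] at h5
  refine h5.trans (mul_le_mul_of_nonneg_left (Real.exp_le_exp.2 ?_) (by positivity))
  have h6 : Real.log 2 + ((L + D : ℕ) : ℝ) * Real.log 2 - δ * L - HR s (law L (L + D)) ≤
      -(δ * L / 4) := by nlinarith [mul_le_mul_of_nonneg_right s2 hL]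
  have h7 : s / 2 ≤ s / (1 + s) := div_le_div_of_nonneg_left s0.le (by linarith) (by linarith)
  calc _ ≤ s / (1 + s) * -(δ * L / 4) := mul_le_mul_of_nonneg_left h6 (by positivity)
    _ ≤ s / 2 * -(δ * L / 4) := mul_le_mul_of_nonpos_right h7 (by linarith)
    _ = _ := by ring

end Pool.Agent.P.MP_fc15d7_nt.HP
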