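import Pool.Agent.P.MP_fc15d7_nt.HP.Iface
import Pool.Agent.P.MP_fc15d7_nt.HZ.TREDA

/-! Step REDA. -/

set_option autoImplicit false
set_option linter.unusedSectionVars false

namespace Pool.Agent.P.MP_fc15d7_nt.HP

open Finset Filter Topology Pool.Agent.P.MP_fc15d7_nt.HZ

theorem p_REDA (hLAW : S_LAW) (hHOLD : S_HOLD) :
    S_REDA := by
  intro L D B s β hs hB
  set S : Finset (ZMod (2 ^ (L + D))) := (range (2 ^ (L + 1)) ×ˢ B).image fun p =>
    (p.1 : ZMod (2 ^ (L + D))) - 2 ^ L * (3 : ZMod (2 ^ (L + D)))⁻¹ ^ L * (p.2 : ZMod _) with hS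
  have hc : (S.card : ℝ) ≤ 2 ^ (L + 1) * B.card := by
    have : S.card ≤ (range (2 ^ (L + 1)) ×ˢ B).card := card_image_le
    rw [card_product, card_range] at this
    exact_mod_cast this
  have hF := hHOLD _ s β (law L (L + D)) S hs (Pm.law _ _) (by
    refine hc.trans (le_trans (le_of_eq ?_) hB)
    ring)
  refine le_trans ?_ hF
  rw [law, hLAW, smul_mul_assoc, sum_mul]
  simp only [co_smul, co_sum]
  rw [← mul_sum, sum_comm, div_eq_inv_mul]
  refine mul_le_mul_of_nonneg_left ?_ (by positivity)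
  rw [card_eq_sum_ones, Nat.cast_sum, sum_filter]
  refine sum_le_sum fun y hy => ?_
  split_ifs with hy'
  · rw [Nat.cast_one]
    refine (REDAb.mass Nat.one_le_two_pow _ _ S fun j hj => ?_).ge
    refine mem_image.2 ⟨(j + y, f^[L] y % 2 ^ D), mem_product.2 ⟨mem_range.2 ?_, hy'⟩, ?_⟩
    · have := mem_range.1 hy
      simp only [pow_succ]
      omega
    · simp only [nsmul_eq_mul, mul_one, Nat.cast_add]
      linear_combination (3 : ZMod (2 ^ (L + D)))⁻¹ ^ L * REDAb.red L D (f^[L] y)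
  · exact sum_nonneg fun x _ => ((Pm.e _).mul (Pm.ap Nat.one_le_two_pow _)).1 x

end Pool.Agent.P.MP_fc15d7_nt.HP
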