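import Pool.Agent.P.MP_fc15d7_nt.HP.Iface
import Pool.Agent.P.MP_fc15d7_nt.HZ.Iface

/-! Step TENS. -/

set_option autoImplicit false
set_option linter.unusedSectionVars false

namespace Pool.Agent.P.MP_fc15d7_nt.HP

open Finset Filter Topology Pool.Agent.P.MP_fc15d7_nt.HZ

theorem tens_three (hNM : S_NM) {r : ℝ} (hr : r ≠ 0) (R : ℕ) {ψ : ℕ → ℝ} (h : ∀ k, 0 ≤ ψ k) :
    nm r (3 * R) ψ = ((nm r R (fun k => ψ (0 + 3 * k)) ^ r + nm r R (fun k => ψ (1 + 3 * k)) ^ r +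
      nm r R (fun k => ψ (2 + 3 * k)) ^ r) / 3) ^ r⁻¹ := by
  rw [nm_rpow hr R fun k => h _, nm_rpow hr R fun k => h _, nm_rpow hr R fun k => h _, nm,
    hNM.2.1 R fun k => ψ k ^ r]
  congr 1
  simp only [sum_range_succ, range_zero, sum_empty]
  push_cast
  ring

theorem tens_shift (hNM : S_NM) (r : ℝ) (R j d : ℕ) {φ : ℕ → ℝ} (h : ∀ k, φ (k + 3 * R) = φ k) :
    nm r R (fun k => φ (j + 3 * d + 3 * k)) = nm r R fun k => φ (j + 3 * k) := by
  have := hNM.2.2 R d (fun k => φ (j + 3 * k) ^ r) fun k => by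
    simp only [show j + 3 * (k + R) = j + 3 * k + 3 * R by ring, h]
  unfold nm
  rw [← this]
  simp only [show ∀ k, j + 3 * (k + d) = j + 3 * d + 3 * k from fun k => by ring]

theorem tens_scale {r E x y z u v w : ℝ} (hr : 0 < r) (hE : 0 ≤ E) (hx : 0 ≤ x) (hy : 0 ≤ y)
    (hz : 0 ≤ z) (hu : 0 ≤ u) (hv : 0 ≤ v) (hw : 0 ≤ w) (h1 : x ≤ E * u) (h2 : y ≤ E * v)
    (h3 : z ≤ E * w) :
    ((x ^ r + y ^ r + z ^ r) / 3) ^ r⁻¹ ≤ E * ((u ^ r + v ^ r + w ^ r) / 3) ^ r⁻¹ := by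
  have a1 := Real.rpow_le_rpow hx h1 hr.le
  have a2 := Real.rpow_le_rpow hy h2 hr.le
  have a3 := Real.rpow_le_rpow hz h3 hr.le
  rw [Real.mul_rpow hE hu] at a1
  rw [Real.mul_rpow hE hv] at a2
  rw [Real.mul_rpow hE hw] at a3
  calc ((x ^ r + y ^ r + z ^ r) / 3) ^ r⁻¹ ≤ (E ^ r * ((u ^ r + v ^ r + w ^ r) / 3)) ^ r⁻¹ :=
        Real.rpow_le_rpow (by positivity) (by linarith) (inv_nonneg.2 hr.le)
    _ = _ := by
        rw [Real.mul_rpow (by positivity) (by positivity), Real.rpow_rpow_inv hE hr.ne']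

theorem p_TENS (hHC : S_HC) (hNM : S_NM) :
    S_TENS := by
  intro s n φ hs hs1 h0 hp
  induction n generalizing φ with
  | zero =>
    have h1 : (1 + s) ≠ 0 := by positivity
    simp [nm, av_zero, Real.rpow_rpow_inv (h0 0) h1, Real.rpow_rpow_inv (h0 0) (pe_pos hs).ne']
  | succ n ih =>
    have h1 : 0 < 1 + s := by positivity
    have e3 : 3 ^ (n + 1) = 3 * 3 ^ n := pow_succ' 3 n
    rw [e3] at hp ⊢
    set P : ℕ → ℝ := fun j => nm (pe s) (3 ^ n) fun k => φ (j + 3 * k) with hP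
    have hP0 : ∀ j, 0 ≤ P j := fun j => nm_nonneg _ _ fun k => h0 _
    have hPs : ∀ j d, P (j + 3 * d) = P j := fun j d => tens_shift hNM _ _ j d hp
    have hQ : ∀ i, nm (1 + s) (3 ^ n) (fun k => av (n + 1) fun j => φ (i + 3 * k + j)) ≤
        Real.exp (s ^ 2 * n) * ((P i + P (i + 2 ^ n)) / 2) := by
      intro i
      have a := ih (fun m => (φ (i + 3 * m) + φ (i + 2 ^ n + 3 * m)) / 2)
        (fun m => by have := h0 (i + 3 * m); have := h0 (i + 2 ^ n + 3 * m); positivity)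
        (fun m => by
          simp only [show ∀ t, t + 3 * (m + 3 ^ n) = t + 3 * m + 3 * 3 ^ n from fun t => by ring,
            hp])
      have b := hNM.1 (pe s) (3 ^ n) (fun m => φ (i + 3 * m)) (fun m => φ (i + 2 ^ n + 3 * m))
        (one_le_pe hs) (fun m => h0 _) (fun m => h0 _)
      refine le_trans (le_of_eq ?_) (a.trans (mul_le_mul_of_nonneg_left b (Real.exp_pos _).le))
      congr 1
      funext k
      rw [av_succ]
      congr 1
      funext j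
      rw [show i + 3 * k + 3 * j = i + 3 * (k + j) by ring,
        show i + 3 * k + (3 * j + 2 ^ n) = i + 2 ^ n + 3 * (k + j) by ring]
    have hn : ∀ i, 0 ≤ nm (1 + s) (3 ^ n) (fun k => av (n + 1) fun j => φ (i + 3 * k + j)) :=
      fun i => nm_nonneg _ _ fun k => av_nonneg _ fun j => h0 _
    have hm : ∀ i j, 0 ≤ (P i + P j) / 2 := fun i j => by
      have := hP0 i; have := hP0 j; positivity
    have hC := hHC s (P 0) (P 1) (P 2) hs hs1 (hP0 0) (hP0 1) (hP0 2)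
    rw [tens_three hNM h1.ne' _ fun k => av_nonneg _ fun j => h0 _,
      tens_three hNM (pe_pos hs).ne' _ h0]
    refine (tens_scale h1 (Real.exp_pos _).le (hn 0) (hn 1) (hn 2) (hm _ _) (hm _ _) (hm _ _)
      (hQ 0) (hQ 1) (hQ 2)).trans ?_
    rw [show s ^ 2 * ((n + 1 : ℕ) : ℝ) = s ^ 2 * n + s ^ 2 by push_cast; ring, Real.exp_add,
      mul_assoc]
    refine mul_le_mul_of_nonneg_left (le_trans (le_of_eq ?_) hC) (Real.exp_pos _).le
    have h3 : ¬ 3 ∣ 2 ^ n := fun h => by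
      have := (Nat.Prime.dvd_of_dvd_pow Nat.prime_three h)
      omega
    obtain ⟨d, hd | hd⟩ : ∃ d, 2 ^ n = 3 * d + 1 ∨ 2 ^ n = 3 * d + 2 := ⟨2 ^ n / 3, by omega⟩
    · rw [hd, show 0 + (3 * d + 1) = 1 + 3 * d by ring, show 1 + (3 * d + 1) = 2 + 3 * d by ring,
        show 2 + (3 * d + 1) = 0 + 3 * (d + 1) by ring, hPs, hPs, hPs]
    · rw [hd, show 0 + (3 * d + 2) = 2 + 3 * d by ring,
        show 1 + (3 * d + 2) = 0 + 3 * (d + 1) by ring,
        show 2 + (3 * d + 2) = 1 + 3 * (d + 1) by ring, hPs, hPs, hPs, add_comm (P 0) (P 2),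
        add_comm (P 1) (P 0), add_comm (P 2) (P 1)]
      congr 2
      ring

end Pool.Agent.P.MP_fc15d7_nt.HP
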