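import Pool.Agent.P.MP_fc15d7_nt.HZ.Main
import Pool.Agent.P.MP_fc15d7_nt.HP.THC
import Pool.Agent.P.MP_fc15d7_nt.HP.TNM
import Pool.Agent.P.MP_fc15d7_nt.HP.TTENS
import Pool.Agent.P.MP_fc15d7_nt.HP.TINTERP
import Pool.Agent.P.MP_fc15d7_nt.HP.TFIB
import Pool.Agent.P.MP_fc15d7_nt.HP.TCELA
import Pool.Agent.P.MP_fc15d7_nt.HP.TCELL
import Pool.Agent.P.MP_fc15d7_nt.HP.TMONO
import Pool.Agent.P.MP_fc15d7_nt.HP.TPERC
import Pool.Agent.P.MP_fc15d7_nt.HP.TFLAT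
import Pool.Agent.P.MP_fc15d7_nt.HP.THOLD
import Pool.Agent.P.MP_fc15d7_nt.HP.TINJ
import Pool.Agent.P.MP_fc15d7_nt.HP.TENTA
import Pool.Agent.P.MP_fc15d7_nt.HP.TENT
import Pool.Agent.P.MP_fc15d7_nt.HP.TREDA
import Pool.Agent.P.MP_fc15d7_nt.HP.TRED
import Pool.Agent.P.MP_fc15d7_nt.HP.TCORE
import Pool.Agent.P.MP_fc15d7_nt.HP.TFINAL

/-! Assembly of the steps. -/

set_option autoImplicit false

namespace Pool.Agent.P.MP_fc15d7_nt.HP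

theorem t_HOLD : S_HOLD := p_HOLD

theorem t_REDA : S_REDA := p_REDA HZ.t_LAW t_HOLD

theorem t_HC : S_HC := p_HC HZ.t_SD

theorem t_NM : S_NM := p_NM

theorem t_TENS : S_TENS := p_TENS t_HC t_NM

theorem t_INTERP : S_INTERP := p_INTERP

theorem t_FIB : S_FIB := p_FIB t_TENS t_INTERP

theorem t_CELA : S_CELA := p_CELA t_FIB

theorem t_CELL : S_CELL := p_CELL t_CELA

theorem t_PERC : S_PERC := p_PERC

theorem t_FLAT : S_FLAT := p_FLAT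

theorem t_MONO : S_MONO := p_MONO

theorem t_INJ : S_INJ := p_INJ HZ.t_MDS t_FLAT t_MONO

theorem t_ENTA : S_ENTA := p_ENTA t_CELL t_PERC t_INJ HZ.t_GAPS t_MONO

theorem t_ENT : S_ENT := p_ENT t_ENTA

theorem t_RED : S_RED := p_RED t_REDA t_ENT

theorem t_CORE : S_CORE := p_CORE t_RED HZ.t_BAD

theorem t_FINAL : S_FINAL := p_FINAL t_CORE

end Pool.Agent.P.MP_fc15d7_nt.HP
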