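import Pool.Agent.P.MP_fc15d7_nt.HP.Iface
import Pool.Agent.P.MP_fc15d7_nt.HZ.TFLAT

/-! Step FLAT. -/

set_option autoImplicit false
set_option linter.unusedSectionVars false

namespace Pool.Agent.P.MP_fc15d7_nt.HP

open Finset Filter Topology Pool.Agent.P.MP_fc15d7_nt.HZ

theorem p_FLAT :
    S_FLAT := by
  classical
  intro G _ _ s ι _ R b hs hR hi
  have r0 : ∀ i, (0 : ℝ) < R i := fun i => by exact_mod_cast hR i
  have z0 : (0 : ℝ) < ∏ i, (R i : ℝ) := prod_pos fun i _ => r0 i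
  have hp : Pm (∏ i, ap (R i) (b i)) := Pm.prod _ fun i _ => Pm.ap (hR i) _
  have h1 : ∀ x, co (∏ i, ap (R i) (b i)) x ≤ (∏ i, (R i : ℝ))⁻¹ := fun x => by
    simp only [ap]
    rw [prod_smul, prod_univ_sum, prod_inv_distrib, co_smul, co_sum]
    refine mul_le_of_le_one_right (inv_pos.2 z0).le ?_
    simp only [← e_sum, co_e]
    rw [sum_boole]
    refine Nat.cast_le_one.2 (card_le_one.2 fun d hd d' hd' => ?_)
    simp only [mem_filter, Fintype.mem_piFinset, mem_range] at hd hd'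
    exact hi d d' hd.1 hd'.1 (hd.2.trans hd'.2.symm)
  have h2 : sp s (∏ i, ap (R i) (b i)) ≤ (∏ i, (R i : ℝ))⁻¹ ^ s := by
    have h0 : (∏ i, (R i : ℝ))⁻¹ ^ s =
        ∑ x, co (∏ i, ap (R i) (b i)) x * (∏ i, (R i : ℝ))⁻¹ ^ s := by
      rw [← sum_mul, hp.2, one_mul]
    rw [sp, h0]
    refine sum_le_sum fun x _ => ?_
    rw [Real.rpow_add' (hp.1 x) (by linarith), Real.rpow_one]
    exact mul_le_mul_of_nonneg_left (Real.rpow_le_rpow (hp.1 x) (h1 x) hs.le) (hp.1 x)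
  have h3 := Real.log_le_log (sp_pos hp s) h2
  rw [Real.log_rpow (inv_pos.2 z0), Real.log_inv] at h3
  rw [← Real.log_prod fun i _ => (r0 i).ne', HR, le_div_iff₀ hs]
  linarith

end Pool.Agent.P.MP_fc15d7_nt.HP
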