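import Pool.Agent.P.MP_fc15d7_nt.HP.Main

/-! The horizon `2 log₂ X`. -/

set_option autoImplicit false

namespace Pool.Agent.P.MP_fc15d7_nt.HP

open Finset Filter Topology Pool.Agent.P.MP_fc15d7_nt.HZ

theorem two (h : ℕ) (w : Fin h → Bool) (η : ℝ) (hη : 0 < η) : ∃ δ : ℝ, 0 < δ ∧
    ∀ᶠ X : ℕ in atTop, (({x : ℕ | x < X ∧ ∃ k : ℕ, (k : ℝ) ≤ 2 * Real.logb 2 X ∧
      η * Real.log X ≤ |(({i : ℕ | i < k ∧ ∀ j : Fin h,
        (Odd ((fun m : ℕ => 3 * m / 2 + 1)^[i + j] x) ↔ w j = true)}.ncard : ℝ)) -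
          k / 2 ^ h|}.ncard : ℝ)) ≤ (X : ℝ) ^ (1 - δ) := by
  have h2 : 0 < Real.log 2 := Real.log_pos (by norm_num)
  have hc : 0 < min 1 (η * Real.log 2 / 4) := lt_min one_pos (by positivity)
  obtain ⟨δ, hδ, H⟩ := t_FINAL (2 - min 1 (η * Real.log 2 / 4)) (by linarith) h w (η / 2)
    (by positivity)
  refine ⟨δ, hδ, ?_⟩
  have ev : ∀ᶠ X : ℕ in atTop, 4 / η ≤ Real.log X :=
    (Real.tendsto_log_atTop.comp tendsto_natCast_atTop_atTop).eventually_ge_atTop _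
  filter_upwards [H, ev] with X hX hl
  refine le_trans ?_ hX
  simp only [final_dev]
  rw [div_le_iff₀ hη] at hl
  have hl0 : 0 ≤ Real.log X := Real.log_natCast_nonneg X
  have hb : Real.logb 2 X * Real.log 2 = Real.log X := div_mul_cancel₀ _ h2.ne'
  have hb0 : 0 ≤ Real.logb 2 X := div_nonneg hl0 h2.le
  have m1 := min_le_left 1 (η * Real.log 2 / 4)
  have m2 := min_le_right 1 (η * Real.log 2 / 4)
  refine Nat.cast_le.2 (Set.ncard_le_ncard ?_ ((Set.finite_lt_nat X).subset fun x hx => hx.1))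
  rintro x ⟨hx, k, hk, hd⟩
  refine ⟨hx, ?_⟩
  set T := (2 - min 1 (η * Real.log 2 / 4)) * Real.logb 2 X with hT
  have hT0 : 0 ≤ T := mul_nonneg (by linarith) hb0
  rcases le_total k ⌊T⌋₊ with hkT | hkT
  · exact ⟨k, (Nat.cast_le.2 hkT).trans (Nat.floor_le hT0), by nlinarith⟩
  · obtain ⟨l, rfl⟩ := Nat.exists_eq_add_of_le hkT
    refine ⟨⌊T⌋₊, Nat.floor_le hT0, ?_⟩
    have e1 := abs_dev_le w l (f^[⌊T⌋₊] (x + 2))
    have e2 := abs_add_le (dev w ⌊T⌋₊ (x + 2)) (dev w l (f^[⌊T⌋₊] (x + 2)))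
    have e3 := Nat.lt_floor_add_one T
    have e4 : min 1 (η * Real.log 2 / 4) * Real.logb 2 X ≤ η * Real.log 2 / 4 * Real.logb 2 X :=
      mul_le_mul_of_nonneg_right m2 hb0
    have e5 : η * Real.log 2 / 4 * Real.logb 2 X = η * Real.log X / 4 := by rw [← hb]; ring
    rw [dev_add] at hd
    push_cast at hk
    nlinarith

end Pool.Agent.P.MP_fc15d7_nt.HP
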